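import Pool.Agent.Q6.RI.Grp

set_option autoImplicit false
set_option maxHeartbeats 400000

namespace Pool.Agent.Q6.RI

open Equiv

/-- the condition on the three macro sums -/
def Cond (z : ZMod 3 → ZMod 3) : Prop := (∀ e e', z e = z e') ∨ ∑ e, z e = 1

lemma sum3 (z : ZMod 3 → ZMod 3) : ∑ e, z e = z 0 + z 1 + z 2 := Fin.sum_univ_three z

lemma all3 {P : ZMod 3 → Prop} (h0 : P 0) (h1 : P 1) (h2 : P 2) : ∀ e, P e := by
  intro e
  have : e = 0 ∨ e = 1 ∨ e = 2 := by revert e; decide
  rcases this with rfl | rfl | rfl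
  · exact h0
  · exact h1
  · exact h2

lemma cond_iff (z : ZMod 3 → ZMod 3) :
    Cond z ↔ (z 0 = z 1 ∧ z 1 = z 2) ∨ z 0 + z 1 + z 2 = 1 := by
  unfold Cond
  rw [sum3]
  refine or_congr ⟨fun h => ⟨h _ _, h _ _⟩, fun h => ?_⟩ Iff.rfl
  have h0 : ∀ e, z e = z 0 := all3 rfl h.1.symm (by rw [← h.2, h.1])
  intro e e'
  rw [h0 e, h0 e']

lemma cond_ne (z : ZMod 3 → ZMod 3) (h : Cond z) : ∑ e, z e ≠ 2 := by
  rw [cond_iff] at h
  rw [sum3]
  generalize z 0 = a at *
  generalize z 1 = b at *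
  generalize z 2 = c at *
  revert a b c
  decide

lemma cond_perm (z : ZMod 3 → ZMod 3) (π : Perm (ZMod 3)) (h : Cond (fun e => z (π e))) :
    Cond z := by
  rcases h with h | h
  · left
    intro e e'
    have := h (π⁻¹ e) (π⁻¹ e')
    simpa using this
  · right
    rw [Equiv.sum_comp π z] at h
    exact h

section
variable {ε v : ZMod 3 → ZMod 3 → ZMod 3}
  (hw : ∀ w : ZMod 3 → ZMod 3 → ZMod 3, Cond (fun e => ∑ k, w e k) →
    Cond (fun e => ∑ k, (ε e k * w e k + v e k)))

include hw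

lemma period (n : ZMod 3 → ZMod 3 → ZMod 3) (hn : ∀ e e', ∑ k, n e k = ∑ k, n e' k) :
    ∑ e, ∑ k, ε e k * n e k = 0 := by
  have h1 : ∀ j : ZMod 3, j * (∑ e, ∑ k, ε e k * n e k) + ∑ e, ∑ k, v e k ≠ 2 := by
    intro j
    have h2 := hw (fun e k => j * n e k) (Or.inl fun e e' => by
      simp only
      rw [← Finset.mul_sum, ← Finset.mul_sum, hn e e'])
    have h3 := cond_ne _ h2
    simp only [Finset.sum_add_distrib] at h3
    intro h4
    apply h3
    rw [← h4, Finset.mul_sum]
    congr 1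
    refine Finset.sum_congr rfl fun e _ => ?_
    rw [Finset.mul_sum]
    refine Finset.sum_congr rfl fun k _ => ?_
    ring
  generalize (∑ e, ∑ k, ε e k * n e k) = a at *
  generalize (∑ e, ∑ k, v e k) = b at *
  revert a b
  decide

lemma eps_const (hε : ∀ e k, ε e k = 1 ∨ ε e k = -1) : ∀ e k, ε e k = ε 0 0 := by
  have h1 : ∀ e k, ε e k = ε e 0 := by
    intro e k
    by_cases hk : k = 0
    · rw [hk]
    have h2 := period hw (fun e' k' => if e' = e then
      (if k' = k then 1 else 0) - (if k' = 0 then 1 else 0) else 0) (by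
        intro a b
        have : ∀ a : ZMod 3, ∑ k' : ZMod 3, (if a = e then
          ((if k' = k then (1 : ZMod 3) else 0) - (if k' = 0 then 1 else 0)) else 0) = 0 := by
          intro a
          by_cases ha : a = e
          · simp [ha]
          · simp [ha]
        rw [this a, this b])
    simp only [mul_ite, mul_sub, mul_one, mul_zero] at h2
    have h3 : ∀ a : ZMod 3, ∑ k' : ZMod 3, (if a = e then
        ((if k' = k then ε a k' else 0) - (if k' = 0 then ε a k' else 0)) else 0)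
        = if a = e then ε e k - ε e 0 else 0 := by
      intro a
      by_cases ha : a = e
      · simp [ha]
      · simp [ha]
    rw [Finset.sum_congr rfl (fun a _ => h3 a)] at h2
    simp only [Finset.sum_ite_eq', Finset.mem_univ, if_true] at h2
    linear_combination h2
  have h2 := period hw (fun e' k' => if k' = 0 then 1 else 0) (by intro a b; simp)
  simp only [mul_ite, mul_one, mul_zero, Finset.sum_ite_eq', Finset.mem_univ, if_true] at h2
  rw [sum3] at h2
  have h3 : ∀ a b c : ZMod 3, (a = 1 ∨ a = -1) → (b = 1 ∨ b = -1) → (c = 1 ∨ c = -1) →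
      a + b + c = 0 → b = a ∧ c = a := by decide
  obtain ⟨h4, h5⟩ := h3 _ _ _ (hε 0 0) (hε 1 0) (hε 2 0) h2
  have h6 : ∀ e, ε e 0 = ε 0 0 := all3 rfl h4 h5
  intro e k
  rw [h1, h6]

lemma final (hε : ∀ e k, ε e k = 1 ∨ ε e k = -1) :
    (∀ e k, ε e k = 1) ∧ ∀ e e', ∑ k, v e k = ∑ k, v e' k := by
  have h0 := eps_const hw hε
  have key : ∀ a : ZMod 3 → ZMod 3, Cond a →
      Cond (fun e => ε 0 0 * a e + ∑ k, v e k) := by
    intro a ha
    have h1 := hw (fun e k => if k = 0 then a e else 0) (by simpa using ha)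
    have h2 : ∀ e, ∑ k, (ε e k * (if k = 0 then a e else 0) + v e k)
        = ε 0 0 * a e + ∑ k, v e k := by
      intro e
      rw [Finset.sum_add_distrib]
      simp [h0 e 0]
    simpa only [h2] using h1
  have k0 := key (fun e => 0) (Or.inl fun _ _ => rfl)
  have k1 := key (fun e => if e = 0 then 1 else 0) (Or.inr (by decide))
  have k2 := key (fun e => if e = 1 then 1 else 0) (Or.inr (by decide))
  rw [cond_iff] at k0 k1 k2
  have h3 := hε 0 0
  have e1 : (1 : ZMod 3) ≠ 0 := by decide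
  have e2 : (2 : ZMod 3) ≠ 0 := by decide
  have e3 : (2 : ZMod 3) ≠ 1 := by decide
  have e4 : (0 : ZMod 3) ≠ 1 := by decide
  simp only [if_true, e1, e2, e3, e4, if_false] at k0 k1 k2
  have h4 : ε 0 0 = 1 ∧ ∑ k, v 0 k = ∑ k, v 1 k ∧ ∑ k, v 1 k = ∑ k, v 2 k := by
    generalize ε 0 0 = η at *
    generalize ∑ k, v 0 k = a at *
    generalize ∑ k, v 1 k = b at *
    generalize ∑ k, v 2 k = c at *
    clear h0 key hw hε
    revert η a b c
    decide
  refine ⟨fun e k => by rw [h0, h4.1], ?_⟩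
  have h5 : ∀ e, ∑ k, v e k = ∑ k, v 0 k := all3 rfl h4.2.1.symm (by rw [← h4.2.2, h4.2.1])
  intro e e'
  rw [h5 e, h5 e']

end

end Pool.Agent.Q6.RI
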