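import Pool.Agent.Q6.RI.Local

set_option autoImplicit false
set_option maxHeartbeats 400000

namespace Pool.Agent.Q6.RI

open Equiv

/-- the permutation `g` has the parameters `π`, `c`, `v` -/
structure Par (g : Perm Om) (π : Perm (ZMod 3)) (c : ZMod 3 → ZMod 3)
    (v : ZMod 3 → ZMod 3 → ZMod 3) : Prop where
  fst : ∀ e k b, (g ((e, k), b)).1 = (π e, k + c e)
  snd : ∀ e k b b', b ≠ b' →
    wt ((g ((e, k), b)).2 + (g ((e, k), b')).2) = wt (b + b') + v e k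

lemma Par.ne {g : Perm Om} {π : Perm (ZMod 3)} {c : ZMod 3 → ZMod 3}
    {v : ZMod 3 → ZMod 3 → ZMod 3} (h : Par g π c v) {e k : ZMod 3} {b b' : F} (hb : b ≠ b') :
    (g ((e, k), b)).2 ≠ (g ((e, k), b')).2 := by
  intro h1
  have h2 : g ((e, k), b) = g ((e, k), b') := by
    apply Prod.ext
    · rw [h.fst, h.fst]
    · exact h1
  have h3 := g.injective h2
  exact hb (by simpa using h3)

lemma Par.eq {g : Perm Om} {π : Perm (ZMod 3)} {c : ZMod 3 → ZMod 3}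
    {v : ZMod 3 → ZMod 3 → ZMod 3} (h : Par g π c v) (e k : ZMod 3) (b : F) :
    g ((e, k), b) = ((π e, k + c e), (g ((e, k), b)).2) := by
  apply Prod.ext
  · rw [h.fst]
  · rfl

lemma Par.one : Par 1 1 (fun _ => 0) (fun _ _ => 0) where
  fst e k b := by simp
  snd e k b b' _ := by simp

lemma Par.mul {g h : Perm Om} {π ρ : Perm (ZMod 3)} {c d : ZMod 3 → ZMod 3}
    {v u : ZMod 3 → ZMod 3 → ZMod 3} (hg : Par g π c v) (hh : Par h ρ d u) :
    Par (g * h) (π * ρ) (fun e => d e + c (ρ e)) (fun e k => u e k + v (ρ e) (k + d e)) where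
  fst e k b := by
    rw [Perm.mul_apply, hh.eq, hg.fst]
    simp [add_assoc]
  snd e k b b' hb := by
    rw [Perm.mul_apply, Perm.mul_apply, hh.eq e k b, hh.eq e k b', hg.snd _ _ _ _ (hh.ne hb),
      hh.snd _ _ _ _ hb]
    ring

lemma Par.inv {g : Perm Om} {π : Perm (ZMod 3)} {c : ZMod 3 → ZMod 3}
    {v : ZMod 3 → ZMod 3 → ZMod 3} (hg : Par g π c v) :
    Par g⁻¹ π⁻¹ (fun e => - c (π⁻¹ e)) (fun e k => - v (π⁻¹ e) (k - c (π⁻¹ e))) := by
  have key : ∀ e k b, ∃ b₀, g ((π⁻¹ e, k - c (π⁻¹ e)), b₀) = ((e, k), b) := by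
    intro e k b
    obtain ⟨⟨⟨e', k'⟩, b₀⟩, h1⟩ := g.surjective ((e, k), b)
    have h2 := hg.fst e' k' b₀
    rw [h1] at h2
    simp only [Prod.mk.injEq] at h2
    obtain ⟨rfl, rfl⟩ := h2
    refine ⟨b₀, ?_⟩
    simpa using h1
  refine ⟨fun e k b => ?_, fun e k b b' hb => ?_⟩
  · obtain ⟨b₀, h⟩ := key e k b
    rw [← h]
    simp [sub_eq_add_neg]
  · obtain ⟨b₀, h⟩ := key e k b
    obtain ⟨b₁, h'⟩ := key e k b'
    have hne : b₀ ≠ b₁ := by
      rintro rfl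
      rw [h] at h'
      exact hb (by simpa using h')
    have h3 := hg.snd (π⁻¹ e) (k - c (π⁻¹ e)) b₀ b₁ hne
    rw [h, h'] at h3
    have h4 : g⁻¹ ((e, k), b) = ((π⁻¹ e, k - c (π⁻¹ e)), b₀) := by
      rw [← h]; simp
    have h5 : g⁻¹ ((e, k), b') = ((π⁻¹ e, k - c (π⁻¹ e)), b₁) := by
      rw [← h']; simp
    rw [h4, h5]
    simp only at h3 ⊢
    rw [h3]
    ring

/-- sum of the shifts of a macro block -/
def yy (v : ZMod 3 → ZMod 3 → ZMod 3) (e : ZMod 3) : ZMod 3 := ∑ k, v e k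

lemma yy_mul (v u : ZMod 3 → ZMod 3 → ZMod 3) (ρ : Perm (ZMod 3)) (d : ZMod 3 → ZMod 3)
    (e : ZMod 3) : yy (fun e k => u e k + v (ρ e) (k + d e)) e = yy u e + yy v (ρ e) := by
  unfold yy
  rw [Finset.sum_add_distrib]
  congr 1
  exact Equiv.sum_comp (Equiv.addRight (d e)) (fun k => v (ρ e) k)

lemma yy_inv (v : ZMod 3 → ZMod 3 → ZMod 3) (π : Perm (ZMod 3)) (c : ZMod 3 → ZMod 3)
    (e : ZMod 3) : yy (fun e k => - v (π⁻¹ e) (k - c (π⁻¹ e))) e = - yy v (π⁻¹ e) := by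
  unfold yy
  rw [Finset.sum_neg_distrib]
  congr 1
  exact Equiv.sum_comp (Equiv.subRight (c (π⁻¹ e))) (fun k => v (π⁻¹ e) k)

/-- the larger group -/
def grpH : Subgroup (Perm Om) where
  carrier := {g | ∃ π c v, Par g π c v ∧ ∀ e e', yy v e = yy v e'}
  one_mem' := ⟨1, _, _, Par.one, fun e e' => by simp [yy]⟩
  mul_mem' := by
    rintro g h ⟨π, c, v, hg, hv⟩ ⟨ρ, d, u, hh, hu⟩
    refine ⟨_, _, _, hg.mul hh, fun e e' => ?_⟩
    rw [yy_mul, yy_mul, hu e e', hv (ρ e) (ρ e')]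
  inv_mem' := by
    rintro g ⟨π, c, v, hg, hv⟩
    refine ⟨_, _, _, hg.inv, fun e e' => ?_⟩
    rw [yy_inv, yy_inv, hv (π⁻¹ e) (π⁻¹ e')]

/-- the group with an odd relation index -/
def grpG : Subgroup (Perm Om) where
  carrier := {g | ∃ π c v, Par g π c v ∧ ∀ e, yy v e + ∑ i, c i = 0}
  one_mem' := ⟨1, _, _, Par.one, fun e => by simp [yy]⟩
  mul_mem' := by
    rintro g h ⟨π, c, v, hg, hv⟩ ⟨ρ, d, u, hh, hu⟩
    refine ⟨_, _, _, hg.mul hh, fun e => ?_⟩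
    rw [yy_mul, Finset.sum_add_distrib, Equiv.sum_comp ρ c]
    have h1 := hu e
    have h2 := hv (ρ e)
    linear_combination h1 + h2
  inv_mem' := by
    rintro g ⟨π, c, v, hg, hv⟩
    refine ⟨_, _, _, hg.inv, fun e => ?_⟩
    rw [yy_inv, Finset.sum_neg_distrib, Equiv.sum_comp π⁻¹ c]
    have h2 := hv (π⁻¹ e)
    linear_combination - h2

lemma grpG_le : grpG ≤ grpH := by
  rintro g ⟨π, c, v, hg, hv⟩
  refine ⟨π, c, v, hg, fun e e' => ?_⟩
  have h1 := hv e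
  have h2 := hv e'
  linear_combination h1 - h2

/-- the shift of a macro block, from the permutation -/
def cc (g : Perm Om) (e : ZMod 3) : ZMod 3 := (g ((e, 0), 0)).1.2

def vv (g : Perm Om) (e k : ZMod 3) : ZMod 3 := wt ((g ((e, k), 0)).2 + (g ((e, k), (1, 0))).2)

lemma Par.cc_eq {g : Perm Om} {π : Perm (ZMod 3)} {c : ZMod 3 → ZMod 3}
    {v : ZMod 3 → ZMod 3 → ZMod 3} (h : Par g π c v) : cc g = c := by
  funext e
  unfold cc
  rw [h.fst]
  simp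

lemma Par.vv_eq {g : Perm Om} {π : Perm (ZMod 3)} {c : ZMod 3 → ZMod 3}
    {v : ZMod 3 → ZMod 3 → ZMod 3} (h : Par g π c v) : vv g = v := by
  funext e k
  unfold vv
  rw [h.snd _ _ _ _ (by decide)]
  have : wt (0 + (1, 0)) = 0 := by decide
  rw [this, zero_add]

/-- the homomorphism with kernel `grpG` -/
def phi (g : Perm Om) : ZMod 3 := yy (vv g) 0 + ∑ i, cc g i

lemma Par.phi_eq {g : Perm Om} {π : Perm (ZMod 3)} {c : ZMod 3 → ZMod 3}
    {v : ZMod 3 → ZMod 3 → ZMod 3} (h : Par g π c v) : phi g = yy v 0 + ∑ i, c i := by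
  unfold phi
  rw [h.cc_eq, h.vv_eq]

def phiHom : grpH →* Multiplicative (ZMod 3) where
  toFun g := Multiplicative.ofAdd (phi g)
  map_one' := by
    have h := Par.one.phi_eq
    change Multiplicative.ofAdd (phi 1) = 1
    rw [h]
    simp [yy]
  map_mul' := by
    rintro ⟨g, π, c, v, hg, hv⟩ ⟨h, ρ, d, u, hh, hu⟩
    change Multiplicative.ofAdd (phi (g * h)) = Multiplicative.ofAdd (phi g) *
      Multiplicative.ofAdd (phi h)
    rw [(hg.mul hh).phi_eq, hg.phi_eq, hh.phi_eq, ← ofAdd_add, yy_mul, Finset.sum_add_distrib,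
      Equiv.sum_comp ρ c, hv (ρ 0) 0]
    congr 1
    ring

lemma mem_grpG_iff (g : Perm Om) : g ∈ grpG ↔ g ∈ grpH ∧ phi g = 0 := by
  constructor
  · intro hg
    refine ⟨grpG_le hg, ?_⟩
    obtain ⟨π, c, v, hg, hv⟩ := hg
    rw [hg.phi_eq, hv 0]
  · rintro ⟨⟨π, c, v, hg, hv⟩, h0⟩
    rw [hg.phi_eq] at h0
    exact ⟨π, c, v, hg, fun e => by rw [hv e 0, h0]⟩

/-- the permutation with given parameters -/
def el (π : Perm (ZMod 3)) (c : ZMod 3 → ZMod 3) (v : ZMod 3 → ZMod 3 → ZMod 3)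
    (t : ZMod 3 → ZMod 3 → F) : Perm Om where
  toFun p := ((π p.1.1, p.1.2 + c p.1.1), rot (v p.1.1 p.1.2) p.2 + t p.1.1 p.1.2)
  invFun p := ((π⁻¹ p.1.1, p.1.2 - c (π⁻¹ p.1.1)),
    rot (- v (π⁻¹ p.1.1) (p.1.2 - c (π⁻¹ p.1.1))) (p.2 + t (π⁻¹ p.1.1) (p.1.2 - c (π⁻¹ p.1.1))))
  left_inv := by
    rintro ⟨⟨e, k⟩, b⟩
    simp [rot_neg]
  right_inv := by
    rintro ⟨⟨e, k⟩, b⟩
    simp [rot_neg']

lemma el_apply (π : Perm (ZMod 3)) (c : ZMod 3 → ZMod 3) (v : ZMod 3 → ZMod 3 → ZMod 3)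
    (t : ZMod 3 → ZMod 3 → F) (e k : ZMod 3) (b : F) :
    el π c v t ((e, k), b) = ((π e, k + c e), rot (v e k) b + t e k) := rfl

lemma el_par (π : Perm (ZMod 3)) (c : ZMod 3 → ZMod 3) (v : ZMod 3 → ZMod 3 → ZMod 3)
    (t : ZMod 3 → ZMod 3 → F) : Par (el π c v t) π c v where
  fst e k b := by rw [el_apply]
  snd e k b b' hb := by
    rw [el_apply, el_apply]
    exact wt_rot _ _ _ _ hb

end Pool.Agent.Q6.RI
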