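import Mathlib

set_option autoImplicit false
set_option maxHeartbeats 400000

namespace Pool.Agent.Q6.RI

abbrev F := ZMod 2 × ZMod 2

abbrev I := ZMod 3 × ZMod 3

abbrev Om := I × F

/-- rotation of the three nonzero elements -/
def rot (v : ZMod 3) (b : F) : F :=
  if v = 0 then b else if v = 1 then (b.2, b.1 + b.2) else (b.1 + b.2, b.1)

/-- the logarithm of a nonzero element -/
def wt (b : F) : ZMod 3 :=
  if b = (1, 0) then 0 else if b = (0, 1) then 1 else if b = (1, 1) then 2 else 0

lemma rot_neg (v : ZMod 3) (b t : F) : rot (-v) (rot v b + t + t) = b := by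
  revert v b t; decide

lemma rot_neg' (v : ZMod 3) (b t : F) : rot v (rot (-v) (b + t)) + t = b := by
  revert v b t; decide

lemma wt_rot (v : ZMod 3) (b b' t : F) (h : b ≠ b') :
    wt (rot v b + t + (rot v b' + t)) = wt (b + b') + v := by
  revert v b b' t; decide

end Pool.Agent.Q6.RI
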