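import Pool.Agent.Q6.RI.Grp

set_option autoImplicit false
set_option maxHeartbeats 400000

namespace Pool.Agent.Q6.RI

open Equiv

/-- the number of elements -/
def num (y : F → Bool) : ℕ :=
  (y (0, 0)).toNat + (y (1, 0)).toNat + (y (0, 1)).toNat + (y (1, 1)).toNat

/-- the function with given values -/
def mk (a b c d : Bool) (x : F) : Bool :=
  if x = (0, 0) then a else if x = (1, 0) then b else if x = (0, 1) then c else d

lemma mk_eq (y : F → Bool) : y = mk (y (0, 0)) (y (1, 0)) (y (0, 1)) (y (1, 1)) := by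
  have h : ∀ x : F, x = (0, 0) ∨ x = (1, 0) ∨ x = (0, 1) ∨ x = (1, 1) := by decide
  funext x
  rcases h x with rfl | rfl | rfl | rfl
  · simp [mk]
  · have : ((1, 0) : F) ≠ (0, 0) := by decide
    simp [mk]
  · simp [mk]
  · simp [mk]

lemma loc1' : ∀ a b c d : Bool, num (mk a b c d) ≠ 2 →
    ∃ t, ∀ x, mk a b c d (rot 1 x + t) = mk a b c d x := by
  decide

lemma loc1 (y : F → Bool) (h : num y ≠ 2) : ∃ t, ∀ x, y (rot 1 x + t) = y x := by
  rw [mk_eq y] at h ⊢
  exact loc1' _ _ _ _ h

/-- the weight of a two-element set -/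
def wy (y : F → Bool) : ZMod 3 :=
  wt ((if y (1, 0) then (1, 0) else 0) + (if y (0, 1) then (0, 1) else 0) +
    (if y (1, 1) then (1, 1) else 0))

lemma loc2' : ∀ a b c d : Bool, num (mk a b c d) = 2 → ∀ a' b' c' d' : Bool,
    num (mk a' b' c' d') = 2 → ∃ t, ∀ x,
    mk a' b' c' d' (rot (wy (mk a' b' c' d') - wy (mk a b c d)) x + t) = mk a b c d x := by
  decide

lemma loc2 (y y' : F → Bool) (h : num y = 2) (h' : num y' = 2) :
    ∃ t, ∀ x, y' (rot (wy y' - wy y) x + t) = y x := by
  rw [mk_eq y] at h ⊢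
  rw [mk_eq y'] at h' ⊢
  exact loc2' _ _ _ _ h _ _ _ _ h'

/-- the part of a set in a block -/
def sl (x : Finset Om) (e k : ZMod 3) (b : F) : Bool := decide (((e, k), b) ∈ x)

lemma rot_zero (b : F) : rot 0 b = b := by simp [rot]

lemma exists_stab (x : Finset Om) :
    ∃ s ∈ grpH, phi s ≠ 0 ∧ ∀ p, s p ∈ x ↔ p ∈ x := by
  by_cases hc : ∀ e, ∃ k, num (sl x e k) ≠ 2
  · choose κ hκ using hc
    have h1 : ∀ e, ∃ t, ∀ b, sl x e (κ e) (rot 1 b + t) = sl x e (κ e) b :=
      fun e => loc1 _ (hκ e)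
    choose t ht using h1
    have hpar := el_par 1 (fun _ => 0) (fun e k => if k = κ e then 1 else 0)
      (fun e k => if k = κ e then t e else 0)
    have hy : ∀ e, yy (fun e k => if k = κ e then (1 : ZMod 3) else 0) e = 1 := by
      intro e
      simp [yy]
    refine ⟨_, ⟨_, _, _, hpar, fun e e' => ?_⟩, ?_, ?_⟩
    · rw [hy, hy]
    · rw [hpar.phi_eq, hy]
      decide
    · rintro ⟨⟨e, k⟩, b⟩
      rw [el_apply]
      by_cases hk : k = κ e
      · have h2 := ht e b
        subst hk
        simp only [sl, decide_eq_decide] at h2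
        simpa using h2
      · simp [hk, rot_zero]
  · push Not at hc
    obtain ⟨e₀, h0⟩ := hc
    have h1 : ∀ k, ∃ t, ∀ b,
        sl x e₀ (k + 1) (rot (wy (sl x e₀ (k + 1)) - wy (sl x e₀ k)) b + t) = sl x e₀ k b :=
      fun k => loc2 _ _ (h0 k) (h0 (k + 1))
    choose t ht using h1
    have hpar := el_par 1 (fun e => if e = e₀ then 1 else 0)
      (fun e k => if e = e₀ then wy (sl x e₀ (k + 1)) - wy (sl x e₀ k) else 0)
      (fun e k => if e = e₀ then t k else 0)
    have hy : ∀ e, yy (fun e k => if e = e₀ then wy (sl x e₀ (k + 1)) - wy (sl x e₀ k)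
        else 0) e = 0 := by
      intro e
      by_cases he : e = e₀
      · simp only [yy, he, if_true]
        rw [Finset.sum_sub_distrib, sub_eq_zero]
        exact Equiv.sum_comp (Equiv.addRight 1) (fun k => wy (sl x e₀ k))
      · simp [yy, he]
    refine ⟨_, ⟨_, _, _, hpar, fun e e' => ?_⟩, ?_, ?_⟩
    · rw [hy, hy]
    · rw [hpar.phi_eq, hy]
      simp
    · rintro ⟨⟨e, k⟩, b⟩
      rw [el_apply]
      by_cases he : e = e₀
      · have h2 := ht k b
        subst he
        simp only [sl, decide_eq_decide] at h2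
        simpa [sl] using h2
      · simp [he, rot_zero]

/-- every element of the larger group agrees with one of the smaller group on a given set -/
lemma exists_agree (x : Finset Om) (h : Perm Om) (hh : h ∈ grpH) :
    ∃ g ∈ grpG, x.image g = x.image h := by
  obtain ⟨s, hs, hs0, hsx⟩ := exists_stab x
  have himg : x.image s = x := by
    ext p
    simp only [Finset.mem_image]
    constructor
    · rintro ⟨q, hq, rfl⟩
      exact (hsx q).mpr hq
    · intro hp
      exact ⟨s⁻¹ p, (hsx _).mp (by simpa using hp), by simp⟩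
  have hpow : ∀ n : ℕ, x.image (s ^ n) = x := by
    intro n
    induction n with
    | zero => simp
    | succ n ih =>
      have h1 : x.image (s ^ (n + 1)) = (x.image s).image (s ^ n) := by
        rw [Finset.image_image]; congr 1
      rw [h1, himg, ih]
  have hphi : ∀ (a b : Perm Om), a ∈ grpH → b ∈ grpH → phi (a * b) = phi a + phi b := by
    intro a b ha hb
    exact Multiplicative.ofAdd.injective (phiHom.map_mul ⟨a, ha⟩ ⟨b, hb⟩)
  have hphin : ∀ n : ℕ, phi (s ^ n) = n * phi s := by
    intro n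
    induction n with
    | zero =>
      simp only [pow_zero, Nat.cast_zero, zero_mul]
      exact Multiplicative.ofAdd.injective phiHom.map_one
    | succ n ih =>
      rw [pow_succ, hphi _ _ (grpH.pow_mem hs n) hs, ih]
      push_cast
      ring
  obtain ⟨n, hn⟩ : ∃ n : ℕ, phi h + n * phi s = 0 := by
    have key : ∀ b : ZMod 3, b ≠ 0 → ∀ a : ZMod 3, ∃ n : Fin 3, a + ((n : ℕ) : ZMod 3) * b = 0 := by
      decide
    obtain ⟨n, hn⟩ := key _ hs0 (phi h)
    exact ⟨n, hn⟩
  refine ⟨h * s ^ n, ?_, ?_⟩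
  · rw [mem_grpG_iff, hphi _ _ hh (grpH.pow_mem hs n), hphin]
    exact ⟨grpH.mul_mem hh (grpH.pow_mem hs n), hn⟩
  · have h1 : x.image (h * s ^ n) = (x.image (s ^ n)).image h := by
      rw [Finset.image_image]; congr 1
    rw [h1, hpow]

end Pool.Agent.Q6.RI
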