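import Pool.Agent.Q6.RI.Fin

set_option autoImplicit false
set_option maxHeartbeats 400000

namespace Pool.Agent.Q6.RI

open Equiv Finset

/-- the points of a block -/
def blk (e k : ZMod 3) : Finset Om := univ.filter (fun p => p.1 = (e, k))

/-- a block together with a point of the next block -/
def blp (e k : ZMod 3) (b : F) : Finset Om := insert ((e, k + 1), b) (blk e k)

/-- two points in every block -/
def prs (p q : ZMod 3 → ZMod 3 → F) : Finset Om :=
  univ.filter (fun x => x.2 = p x.1.1 x.1.2 ∨ x.2 = q x.1.1 x.1.2)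

/-- the sets with two points in every block and the condition on the weights -/
def Full (x : Finset Om) : Prop :=
  ∃ p q : ZMod 3 → ZMod 3 → F, (∀ e k, p e k ≠ q e k) ∧
    Cond (fun e => ∑ k, wt (p e k + q e k)) ∧ x = prs p q

/-- the relation -/
def R0 : Set (Finset Om) := {x | (∃ e k, x = blk e k) ∨ (∃ e k b, x = blp e k b) ∨ Full x}

lemma mem_blk {e k : ZMod 3} {x : Om} : x ∈ blk e k ↔ x.1 = (e, k) := by simp [blk]

lemma mem_blp {e k : ZMod 3} {b : F} {x : Om} :
    x ∈ blp e k b ↔ x = ((e, k + 1), b) ∨ x.1 = (e, k) := by simp [blp, blk]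

lemma mem_prs {p q : ZMod 3 → ZMod 3 → F} {e k : ZMod 3} {b : F} :
    ((e, k), b) ∈ prs p q ↔ b = p e k ∨ b = q e k := by simp [prs]

lemma card_blk (e k : ZMod 3) : (blk e k).card = 4 := by
  have : blk e k = univ.map ⟨fun b : F => ((e, k), b), fun a b h => by simpa using h⟩ := by
    ext x
    rw [mem_blk]
    simp only [mem_map, mem_univ, true_and, Function.Embedding.coeFn_mk]
    constructor
    · intro h
      exact ⟨x.2, by rw [← h]⟩
    · rintro ⟨b, rfl⟩
      rfl
  rw [this, card_map]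
  rfl

lemma card_blp (e k : ZMod 3) (b : F) : (blp e k b).card = 5 := by
  unfold blp
  rw [card_insert_of_notMem, card_blk]
  rw [mem_blk]
  simp

lemma card_full {x : Finset Om} (h : Full x) : 9 ≤ x.card := by
  obtain ⟨p, q, hne, -, rfl⟩ := h
  have hinj : Function.Injective (fun i : I => (((i.1, i.2), p i.1 i.2) : Om)) := by
    intro a b h
    simp only [Prod.mk.injEq] at h
    exact Prod.ext h.1.1 h.1.2
  have h1 : (univ.image (fun i : I => (((i.1, i.2), p i.1 i.2) : Om))).card ≤ (prs p q).card := by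
    apply card_le_card
    intro x hx
    simp only [mem_image, mem_univ, true_and] at hx
    obtain ⟨i, rfl⟩ := hx
    rw [mem_prs]
    exact Or.inl rfl
  rw [card_image_of_injective _ hinj] at h1
  exact h1

lemma mem_img (g : Perm Om) (s : Finset Om) (y : Om) : g y ∈ s.image g ↔ y ∈ s := by
  rw [mem_image]
  constructor
  · rintro ⟨z, hz, h⟩
    rwa [← g.injective h]
  · intro h
    exact ⟨y, h, rfl⟩

lemma Par.fst_iff {g : Perm Om} {π : Perm (ZMod 3)} {c : ZMod 3 → ZMod 3}
    {v : ZMod 3 → ZMod 3 → ZMod 3} (hg : Par g π c v) (y : Om) (e k : ZMod 3) :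
    (g y).1 = (π e, k + c e) ↔ y.1 = (e, k) := by
  obtain ⟨⟨e', k'⟩, b⟩ := y
  rw [hg.fst]
  simp only [Prod.mk.injEq, EmbeddingLike.apply_eq_iff_eq]
  constructor
  · rintro ⟨rfl, h⟩
    exact ⟨rfl, by simpa using h⟩
  · rintro ⟨rfl, rfl⟩
    exact ⟨rfl, rfl⟩

lemma Par.image_blk {g : Perm Om} {π : Perm (ZMod 3)} {c : ZMod 3 → ZMod 3}
    {v : ZMod 3 → ZMod 3 → ZMod 3} (hg : Par g π c v) (e k : ZMod 3) :
    (blk e k).image g = blk (π e) (k + c e) := by
  ext x
  obtain ⟨y, rfl⟩ := g.surjective x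
  rw [mem_img, mem_blk, mem_blk, hg.fst_iff]

lemma Par.image_blp {g : Perm Om} {π : Perm (ZMod 3)} {c : ZMod 3 → ZMod 3}
    {v : ZMod 3 → ZMod 3 → ZMod 3} (hg : Par g π c v) (e k : ZMod 3) (b : F) :
    (blp e k b).image g = blp (π e) (k + c e) (g ((e, k + 1), b)).2 := by
  unfold blp
  rw [image_insert, hg.image_blk]
  congr 1
  rw [hg.eq]
  simp only [Prod.mk.injEq, true_and, and_true]
  ring

lemma inv_ap (π : Perm (ZMod 3)) (e : ZMod 3) : π⁻¹ (π e) = e := by simp

lemma Par.image_prs {g : Perm Om} {π : Perm (ZMod 3)} {c : ZMod 3 → ZMod 3}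
    {v : ZMod 3 → ZMod 3 → ZMod 3} (hg : Par g π c v) (p q : ZMod 3 → ZMod 3 → F) :
    (prs p q).image g =
      prs (fun e k => (g ((π⁻¹ e, k - c (π⁻¹ e)), p (π⁻¹ e) (k - c (π⁻¹ e)))).2)
        (fun e k => (g ((π⁻¹ e, k - c (π⁻¹ e)), q (π⁻¹ e) (k - c (π⁻¹ e)))).2) := by
  ext x
  obtain ⟨⟨⟨e, k⟩, b⟩, rfl⟩ := g.surjective x
  rw [mem_img, mem_prs, hg.eq, mem_prs]
  simp only [inv_ap, add_sub_cancel_right]
  have h1 : ∀ b', (g ((e, k), b)).2 = (g ((e, k), b')).2 ↔ b = b' := by
    intro b'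
    constructor
    · intro h
      by_contra hne
      exact hg.ne hne h
    · rintro rfl
      rfl
  rw [h1, h1]

lemma image_mem_of_mem {g : Perm Om} (hg : g ∈ grpH) {x : Finset Om} (hx : x ∈ R0) :
    x.image g ∈ R0 := by
  obtain ⟨π, c, v, hg, hv⟩ := hg
  rcases hx with ⟨e, k, rfl⟩ | ⟨e, k, b, rfl⟩ | ⟨p, q, hne, hc, rfl⟩
  · exact Or.inl ⟨_, _, hg.image_blk e k⟩
  · exact Or.inr (Or.inl ⟨_, _, _, hg.image_blp e k b⟩)
  · refine Or.inr (Or.inr ⟨_, _, fun e k => hg.ne (hne _ _), ?_, hg.image_prs p q⟩)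
    apply cond_perm _ π
    have h1 : ∀ e, ∑ k, wt ((g ((π⁻¹ (π e), k - c (π⁻¹ (π e))),
        p (π⁻¹ (π e)) (k - c (π⁻¹ (π e))))).2 + (g ((π⁻¹ (π e), k - c (π⁻¹ (π e))),
        q (π⁻¹ (π e)) (k - c (π⁻¹ (π e))))).2) = ∑ k, wt (p e k + q e k) + yy v e := by
      intro e
      simp only [inv_ap]
      have h2 : ∀ k, wt ((g ((e, k - c e), p e (k - c e))).2 +
          (g ((e, k - c e), q e (k - c e))).2) =
          wt (p e (k - c e) + q e (k - c e)) + v e (k - c e) :=
        fun k => hg.snd _ _ _ _ (hne _ _)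
      simp only [h2]
      refine (Equiv.sum_comp (Equiv.subRight (c e)) (fun k => wt (p e k + q e k) + v e k)).trans ?_
      rw [sum_add_distrib]
      rfl
    simp only [h1]
    rcases hc with hc | hc
    · left
      intro e e'
      simp only [hc e e', hv e e']
    · right
      rw [sum_add_distrib, hc]
      have : ∑ e, yy v e = 0 := by
        rw [sum_congr rfl (fun e _ => hv e 0), sum_const]
        have h3 : (univ : Finset (ZMod 3)).card = 3 := rfl
        rw [h3]
        generalize yy v 0 = a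
        revert a
        decide
      rw [this, add_zero]

/-- the properties of a local map -/
def Chk (a b c d : F) (ε v : ZMod 3) : Prop :=
  (ε = 1 ∨ ε = -1) ∧ (wt (a + b) = ε * 0 + v ∧ wt (a + c) = ε * 1 + v ∧
      wt (a + d) = ε * 2 + v) ∧ (wt (b + c) = ε * 2 + v ∧ wt (b + d) = ε * 1 + v ∧
      wt (c + d) = ε * 0 + v)

instance (a b c d : F) (ε v : ZMod 3) : Decidable (Chk a b c d ε v) := by
  unfold Chk; infer_instance

def Dst (a b c d : F) : Prop := (a ≠ b ∧ a ≠ c ∧ a ≠ d) ∧ b ≠ c ∧ b ≠ d ∧ c ≠ d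

instance (a b c d : F) : Decidable (Dst a b c d) := by
  unfold Dst; infer_instance

/-- all permutations of the four elements are affine up to a sign -/
lemma loc3' : ∀ a b c d : F, Dst a b c d → ∃ ε v : ZMod 3, Chk a b c d ε v := by
  decide

lemma loc3 (f : F → F) (hf : Function.Injective f) : ∃ ε v : ZMod 3, (ε = 1 ∨ ε = -1) ∧
    ∀ b b', b ≠ b' → wt (f b + f b') = ε * wt (b + b') + v := by
  have hne : ∀ x y : F, x ≠ y → f x ≠ f y := fun x y h => hf.ne h
  obtain ⟨ε, v, hε, ⟨h1, h2, h3⟩, h4, h5, h6⟩ := loc3' (f (0, 0)) (f (1, 0)) (f (0, 1)) (f (1, 1))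
    ⟨⟨hne _ _ (by decide), hne _ _ (by decide), hne _ _ (by decide)⟩, hne _ _ (by decide),
    hne _ _ (by decide), hne _ _ (by decide)⟩
  refine ⟨ε, v, hε, ?_⟩
  have hF : ∀ x : F, x = (0, 0) ∨ x = (1, 0) ∨ x = (0, 1) ∨ x = (1, 1) := by decide
  have w1 : wt (((0, 0) : F) + (1, 0)) = 0 := by decide
  have w2 : wt (((0, 0) : F) + (0, 1)) = 1 := by decide
  have w3 : wt (((0, 0) : F) + (1, 1)) = 2 := by decide
  have w4 : wt (((1, 0) : F) + (0, 1)) = 2 := by decide
  have w5 : wt (((1, 0) : F) + (1, 1)) = 1 := by decide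
  have w6 : wt (((0, 1) : F) + (1, 1)) = 0 := by decide
  intro b b' hb
  rcases hF b with rfl | rfl | rfl | rfl <;> rcases hF b' with rfl | rfl | rfl | rfl
  · exact absurd rfl hb
  · rw [w1, h1]
  · rw [w2, h2]
  · rw [w3, h3]
  · rw [add_comm (f _), add_comm ((1, 0) : F), w1, h1]
  · exact absurd rfl hb
  · rw [w4, h4]
  · rw [w5, h5]
  · rw [add_comm (f _), add_comm ((0, 1) : F), w2, h2]
  · rw [add_comm (f _), add_comm ((0, 1) : F), w4, h4]
  · exact absurd rfl hb
  · rw [w6, h6]
  · rw [add_comm (f _), add_comm ((1, 1) : F), w3, h3]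
  · rw [add_comm (f _), add_comm ((1, 1) : F), w5, h5]
  · rw [add_comm (f _), add_comm ((1, 1) : F), w6, h6]
  · exact absurd rfl hb

/-- the nonzero element of given weight -/
def uu (w : ZMod 3) : F := rot w (1, 0)

lemma uu_ne (w : ZMod 3) : uu w ≠ 0 := by revert w; decide

lemma wt_uu (w : ZMod 3) : wt (0 + uu w) = w := by revert w; decide

lemma mem_grpH_of {g : Perm Om} (h : ∀ x ∈ R0, x.image g ∈ R0) : g ∈ grpH := by
  -- blocks
  have hcard : ∀ x : Finset Om, (x.image g).card = x.card :=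
    fun x => card_image_of_injective x g.injective
  have h1 : ∀ e k, ∃ i : I, (blk e k).image g = blk i.1 i.2 := by
    intro e k
    have h2 := h (blk e k) (Or.inl ⟨e, k, rfl⟩)
    have h3 := hcard (blk e k)
    rw [card_blk] at h3
    rcases h2 with ⟨e', k', h2⟩ | ⟨e', k', b', h2⟩ | h2
    · exact ⟨(e', k'), h2⟩
    · rw [h2, card_blp] at h3
      omega
    · have := card_full h2
      omega
  choose σ hσ using h1
  have hfst : ∀ e k b, (g ((e, k), b)).1 = σ e k := by
    intro e k b
    have h2 : g ((e, k), b) ∈ (blk e k).image g := by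
      rw [mem_img, mem_blk]
    rw [hσ, mem_blk] at h2
    exact h2
  have hinj : ∀ e k b b', b ≠ b' → (g ((e, k), b)).2 ≠ (g ((e, k), b')).2 := by
    intro e k b b' hb h2
    have h3 : g ((e, k), b) = g ((e, k), b') := by
      apply Prod.ext
      · rw [hfst, hfst]
      · exact h2
    have h4 := g.injective h3
    exact hb (by simpa using h4)
  -- the next block
  have hnext : ∀ e k, σ e (k + 1) = ((σ e k).1, (σ e k).2 + 1) := by
    intro e k
    have h2 := h (blp e k 0) (Or.inr (Or.inl ⟨e, k, 0, rfl⟩))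
    have h3 := hcard (blp e k 0)
    rw [card_blp] at h3
    rcases h2 with ⟨e', k', h2⟩ | ⟨e', k', b', h2⟩ | h2
    · rw [h2, card_blk] at h3
      omega
    · have h4 : ∀ y, y ∈ blp e k 0 → g y = ((e', k' + 1), b') ∨ (g y).1 = (e', k') := by
        intro y hy
        rw [← mem_img g, h2, mem_blp] at hy
        exact hy
      have h5 : σ e k = (e', k') := by
        have h6 := h4 ((e, k), (0, 0)) (by rw [mem_blp]; right; rfl)
        have h7 := h4 ((e, k), (1, 0)) (by rw [mem_blp]; right; rfl)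
        rcases h6 with h6 | h6
        · rcases h7 with h7 | h7
          · rw [← h7] at h6
            have := g.injective h6
            simp at this
          · rw [← hfst e k (1, 0), h7]
        · rw [← hfst e k (0, 0), h6]
      have h6 := h4 ((e, k + 1), 0) (by rw [mem_blp]; left; rfl)
      rcases h6 with h6 | h6
      · rw [← hfst e (k + 1) 0, h6, h5]
      · exfalso
        have h7 : g ((e, k + 1), 0) ∈ (blk e k).image g := by
          rw [hσ, mem_blk, h6, h5]
        rw [mem_img, mem_blk] at h7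
        simp at h7
    · have := card_full h2
      omega
  have hσ' : ∀ e k, σ e k = ((σ e 0).1, k + (σ e 0).2) := by
    intro e
    have a1 := hnext e 0
    have a2 := hnext e 1
    have b1 : (0 : ZMod 3) + 1 = 1 := by decide
    have b2 : (1 : ZMod 3) + 1 = 2 := by decide
    rw [b1] at a1
    rw [b2, a1] at a2
    apply all3
    · simp
    · rw [a1, add_comm]
    · rw [a2]
      simp only [Prod.mk.injEq, true_and]
      rw [add_assoc, b2, add_comm]
  have hsurj : Function.Surjective (fun e => (σ e 0).1) := by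
    intro e'
    obtain ⟨⟨⟨e, k⟩, b⟩, h2⟩ := g.surjective ((e', 0), 0)
    refine ⟨e, ?_⟩
    have h3 := hfst e k b
    rw [h2, hσ'] at h3
    simp only [Prod.mk.injEq] at h3
    exact h3.1.symm
  obtain ⟨π, hπ⟩ : ∃ π : Perm (ZMod 3), ∀ e, π e = (σ e 0).1 :=
    ⟨Equiv.ofBijective _ (Finite.surjective_iff_bijective.mp hsurj), fun e => rfl⟩
  set c : ZMod 3 → ZMod 3 := fun e => (σ e 0).2 with hc
  have hfst' : ∀ e k b, (g ((e, k), b)).1 = (π e, k + c e) := by
    intro e k b
    rw [hfst, hσ', hπ]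
  -- local maps
  have h2 : ∀ e k, ∃ ε v : ZMod 3, (ε = 1 ∨ ε = -1) ∧
      ∀ b b', b ≠ b' → wt ((g ((e, k), b)).2 + (g ((e, k), b')).2) = ε * wt (b + b') + v := by
    intro e k
    apply loc3 (fun b => (g ((e, k), b)).2)
    intro b b' hbb
    by_contra hne
    exact hinj e k b b' hne hbb
  choose ε v hε hv using h2
  have hw : ∀ w : ZMod 3 → ZMod 3 → ZMod 3, Cond (fun e => ∑ k, w e k) →
      Cond (fun e => ∑ k, (ε e k * w e k + v e k)) := by
    intro w hw
    have h3 : Full (prs (fun _ _ => 0) (fun e k => uu (w e k))) := by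
      refine ⟨_, _, fun e k => (uu_ne _).symm, ?_, rfl⟩
      simpa only [wt_uu] using hw
    have h4 := h _ (Or.inr (Or.inr h3))
    have h5 := card_full h3
    rw [← hcard] at h5
    rcases h4 with ⟨e', k', h4⟩ | ⟨e', k', b', h4⟩ | h4
    · rw [h4, card_blk] at h5
      omega
    · rw [h4, card_blp] at h5
      omega
    · obtain ⟨p, q, hpq, hcond, heq⟩ := h4
      have h6 : ∀ e k b, (b = 0 ∨ b = uu (w e k)) ↔
          ((g ((e, k), b)).2 = p (π e) (k + c e) ∨ (g ((e, k), b)).2 = q (π e) (k + c e)) := by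
        intro e k b
        have h7 := mem_img g (prs (fun _ _ => 0) (fun e k => uu (w e k))) ((e, k), b)
        rw [mem_prs, heq] at h7
        rw [← h7]
        have h8 : g ((e, k), b) = ((π e, k + c e), (g ((e, k), b)).2) := by
          rw [← hfst' e k b]
        rw [h8, mem_prs]
      have h7 : ∀ e k, wt (p (π e) (k + c e) + q (π e) (k + c e)) = ε e k * w e k + v e k := by
        intro e k
        have a1 := (h6 e k 0).mp (Or.inl rfl)
        have a2 := (h6 e k (uu (w e k))).mp (Or.inr rfl)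
        have a3 := hv e k 0 (uu (w e k)) (uu_ne _).symm
        have a4 := hinj e k 0 (uu (w e k)) (uu_ne _).symm
        rw [wt_uu] at a3
        rw [← a3]
        rcases a1 with a1 | a1 <;> rcases a2 with a2 | a2
        · exact absurd (a1.trans a2.symm) a4
        · rw [a1, a2]
        · rw [a1, a2, add_comm]
        · exact absurd (a1.trans a2.symm) a4
      have h8 : Cond (fun e => ∑ k, wt (p (π e) k + q (π e) k)) := by
        rcases hcond with h9 | h9
        · left
          intro e e'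
          exact h9 (π e) (π e')
        · right
          rw [← h9]
          exact Equiv.sum_comp π (fun e => ∑ k, wt (p e k + q e k))
      have h9 : ∀ e, ∑ k, wt (p (π e) k + q (π e) k) = ∑ k, (ε e k * w e k + v e k) := by
        intro e
        rw [← Equiv.sum_comp (Equiv.addRight (c e)) (fun k => wt (p (π e) k + q (π e) k))]
        exact sum_congr rfl (fun k _ => h7 e k)
      simpa only [h9] using h8
  obtain ⟨hone, hsum⟩ := final hw hε
  refine ⟨π, c, v, ⟨hfst', fun e k b b' hb => ?_⟩, hsum⟩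
  rw [hv e k b b' hb, hone, one_mul]

end Pool.Agent.Q6.RI
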